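import Pool.Agent.helper4.GA.Spec

set_option autoImplicit false

/-! # Row `BAL` of project ga: the branching along a list of levels -/

open Finset
open Pool.Agent.helper32.Cant

namespace Pool.Agent.GA

theorem BAL_ind_nonneg (p : Prop) : 0 ≤ ind p := by
  unfold ind; split_ifs <;> norm_num

theorem BAL_ind_le (p : Prop) : ind p ≤ 1 := by
  unfold ind; split_ifs <;> norm_num

theorem BAL_rc_rc {n sh a b z : ℕ} (hab : a ≤ b) (hbn : b ≤ n) :
    rc n sh a z = rc n sh b z / 3 ^ (b - a) := by
  unfold rc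
  rw [Nat.div_div_eq_div_mul, ← pow_add]
  congr 2
  omega

theorem BAL_filter {X : Type} [Fintype X] (n sh a b : ℕ) (R : X → ℕ) (x : X) (hab : a ≤ b)
    (hbn : b ≤ n) :
    ({y ∈ ({y | rc n sh a (R y) = rc n sh a (R x)} : Finset X) | rc n sh b (R y) = rc n sh b (R x)}) =
      ({y | rc n sh b (R y) = rc n sh b (R x)} : Finset X) := by
  ext y
  simp only [Finset.mem_filter, Finset.mem_univ, true_and]
  constructor
  · exact fun h => h.2
  · intro h
    exact ⟨by rw [BAL_rc_rc hab hbn, BAL_rc_rc hab hbn, h], h⟩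

theorem BAL_good {n sh a z z' : ℕ} (han : a + 2 ≤ n) (hg : good n sh a z)
    (h : |(z' : ℤ) - z| ≤ 3 ^ (n - (a + 2))) : rc n sh a z' = rc n sh a z := by
  unfold good at hg
  have e : n - a - 2 = n - (a + 2) := by omega
  rw [e] at hg
  set L : ℕ := 3 ^ (n - (a + 2)) with hL
  have hLpos : 0 < L := by rw [hL]; positivity
  have hLc : ((3 : ℤ) ^ (n - (a + 2))) = (L : ℤ) := by rw [hL]; push_cast; ring
  rw [hLc, abs_le] at h
  have e9 : 3 ^ (n - a) = L * 9 := by
    rw [hL]
    have : n - a = n - (a + 2) + 2 := by omega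
    rw [this, pow_add]
    norm_num
  unfold rc
  rw [e9, ← Nat.div_div_eq_div_mul, ← Nat.div_div_eq_div_mul]
  have h1 : (z + sh) / L * L ≤ z + sh := Nat.div_mul_le_self _ _
  have h2 : z + sh < ((z + sh) / L + 1) * L := by
    have := Nat.lt_div_mul_add (a := z + sh) hLpos
    linarith
  have h3 : (z' + sh) / L < (z + sh) / L + 2 := by
    rw [Nat.div_lt_iff_lt_mul hLpos]
    nlinarith
  have h4 : (z + sh) / L ≤ (z' + sh) / L + 1 := by
    have h5 : z' + sh < ((z' + sh) / L + 1) * L := by
      have := Nat.lt_div_mul_add (a := z' + sh) hLpos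
      linarith
    have h6 : (z + sh) / L < (z' + sh) / L + 2 := by
      rw [Nat.div_lt_iff_lt_mul hLpos]
      nlinarith
    omega
  omega

theorem BAL_far {n sh a b z z' : ℕ} (hab : a + 4 ≤ b) (hbn : b ≤ n) (h : ¬ far n sh a b z z') :
    |(z' : ℤ) - z| ≤ 3 ^ (n - (a + 3)) := by
  unfold far at h
  rw [not_le] at h
  have e1 : (3 : ℤ) ^ (b - a) = 81 * 3 ^ (b - a - 4) := by
    have : b - a = b - a - 4 + 4 := by omega
    conv_lhs => rw [this, pow_add]
    ring
  rw [e1] at h
  have h1 : |(rc n sh b z : ℤ) - rc n sh b z'| + 1 ≤ 3 ^ (b - a - 4) := by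
    have : |(rc n sh b z : ℤ) - rc n sh b z'| < 3 ^ (b - a - 4) := by linarith
    linarith
  set L : ℕ := 3 ^ (n - b) with hL
  have hLpos : 0 < L := by rw [hL]; positivity
  have hr1 : rc n sh b z * L ≤ z + sh := by
    unfold rc; rw [← hL]; exact Nat.div_mul_le_self _ _
  have hr2 : z + sh < (rc n sh b z + 1) * L := by
    unfold rc; rw [← hL]
    have := Nat.lt_div_mul_add (a := z + sh) hLpos
    linarith
  have hr3 : rc n sh b z' * L ≤ z' + sh := by
    unfold rc; rw [← hL]; exact Nat.div_mul_le_self _ _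
  have hr4 : z' + sh < (rc n sh b z' + 1) * L := by
    unfold rc; rw [← hL]
    have := Nat.lt_div_mul_add (a := z' + sh) hLpos
    linarith
  have h2 : |(z' : ℤ) - z| ≤ (|(rc n sh b z : ℤ) - rc n sh b z'| + 1) * L := by
    have hr1' : (rc n sh b z : ℤ) * L ≤ z + sh := by exact_mod_cast hr1
    have hr2' : (z : ℤ) + sh < (rc n sh b z + 1) * L := by exact_mod_cast hr2
    have hr3' : (rc n sh b z' : ℤ) * L ≤ z' + sh := by exact_mod_cast hr3
    have hr4' : (z' : ℤ) + sh < (rc n sh b z' + 1) * L := by exact_mod_cast hr4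
    have hL0 : (0 : ℤ) < L := by exact_mod_cast hLpos
    have ha := le_abs_self ((rc n sh b z : ℤ) - rc n sh b z')
    have hb := neg_abs_le ((rc n sh b z : ℤ) - rc n sh b z')
    rw [abs_le]
    constructor
    · nlinarith
    · nlinarith
  have h3 : (|(rc n sh b z : ℤ) - rc n sh b z'| + 1) * L ≤ 3 ^ (b - a - 4) * L :=
    mul_le_mul_of_nonneg_right h1 (by positivity)
  have h4 : (3 : ℤ) ^ (b - a - 4) * L = 3 ^ (n - (a + 4)) := by
    rw [hL]
    push_cast
    rw [← pow_add]
    congr 1
    omega
  have h5 : (3 : ℤ) ^ (n - (a + 4)) ≤ 3 ^ (n - (a + 3)) :=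
    pow_le_pow_right₀ (by norm_num) (by omega)
  linarith

theorem BAL_one {X : Type} [Fintype X] (n sh : ℕ) (R : X → ℕ) (w : X → ℝ) (hw : ∀ x, 0 < w x)
    (a b : ℕ) (x : X) (hab : a + 4 ≤ b) (hbn : b ≤ n) :
    ind (good n sh a (R x)) * om n R w a x ≤
      gf n sh R w a b ({y | rc n sh a (R y) = rc n sh a (R x)} : Finset X) x := by
  classical
  set P : Finset X := {y | rc n sh a (R y) = rc n sh a (R x)} with hP
  have hxP : x ∈ P := by rw [hP]; exact Finset.mem_filter.2 ⟨Finset.mem_univ _, rfl⟩
  have hm : 0 < ∑ y ∈ P, w y := Finset.sum_pos (fun y _ => hw y) ⟨x, hxP⟩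
  by_cases hg : good n sh a (R x)
  · have hi : ind (good n sh a (R x)) = 1 := by unfold ind; rw [if_pos hg]
    rw [hi, one_mul]
    have hm2 : 0 < mj n R w (a + 2) x := by
      unfold mj
      refine Finset.sum_pos' (fun y _ => mul_nonneg (hw y).le (BAL_ind_nonneg _))
        ⟨x, Finset.mem_univ _, ?_⟩
      have : ind (|(R x : ℤ) - R x| ≤ 3 ^ (n - (a + 2))) = 1 := by
        unfold ind
        rw [if_pos]
        rw [sub_self, abs_zero]
        positivity
      rw [this, mul_one]
      exact hw x
    have hm2le : mj n R w (a + 2) x ≤ ∑ y ∈ P, w y := by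
      unfold mj
      rw [← Finset.sum_subset (Finset.subset_univ P)]
      · refine Finset.sum_le_sum fun y _ => ?_
        calc w y * ind (|(R y : ℤ) - R x| ≤ 3 ^ (n - (a + 2))) ≤ w y * 1 :=
              mul_le_mul_of_nonneg_left (BAL_ind_le _) (hw y).le
          _ = w y := mul_one _
      · intro y _ hy
        have : ¬ |(R y : ℤ) - R x| ≤ 3 ^ (n - (a + 2)) := by
          intro h
          apply hy
          rw [hP]
          exact Finset.mem_filter.2 ⟨Finset.mem_univ _, BAL_good (by omega) hg h⟩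
        unfold ind
        rw [if_neg this, mul_zero]
    have hm3 : ∑ y ∈ P, w y * (1 - ind (far n sh a b (R x) (R y))) ≤ mj n R w (a + 3) x := by
      unfold mj
      calc ∑ y ∈ P, w y * (1 - ind (far n sh a b (R x) (R y)))
          ≤ ∑ y ∈ P, w y * ind (|(R y : ℤ) - R x| ≤ 3 ^ (n - (a + 3))) := by
            refine Finset.sum_le_sum fun y _ => ?_
            apply mul_le_mul_of_nonneg_left _ (hw y).le
            by_cases hf : far n sh a b (R x) (R y)
            · have : ind (far n sh a b (R x) (R y)) = 1 := by unfold ind; rw [if_pos hf]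
              rw [this, sub_self]
              exact BAL_ind_nonneg _
            · have h1 : ind (far n sh a b (R x) (R y)) = 0 := by unfold ind; rw [if_neg hf]
              have h2 : ind (|(R y : ℤ) - R x| ≤ 3 ^ (n - (a + 3))) = 1 := by
                unfold ind; rw [if_pos (BAL_far hab hbn hf)]
              rw [h1, h2, sub_zero]
        _ ≤ ∑ y, w y * ind (|(R y : ℤ) - R x| ≤ 3 ^ (n - (a + 3))) :=
            Finset.sum_le_sum_of_subset_of_nonneg (Finset.subset_univ _)
              fun y _ _ => mul_nonneg (hw y).le (BAL_ind_nonneg _)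
    have hm30 : 0 ≤ mj n R w (a + 3) x := by
      unfold mj
      exact Finset.sum_nonneg fun y _ => mul_nonneg (hw y).le (BAL_ind_nonneg _)
    have hgf : gf n sh R w a b P x =
        1 - (∑ y ∈ P, w y * (1 - ind (far n sh a b (R x) (R y)))) / ∑ y ∈ P, w y := by
      unfold gf
      have : ∑ y ∈ P, w y * (1 - ind (far n sh a b (R x) (R y))) =
          ∑ y ∈ P, w y - ∑ y ∈ P, w y * ind (far n sh a b (R x) (R y)) := by
        rw [← Finset.sum_sub_distrib]
        exact Finset.sum_congr rfl fun y _ => by ring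
      rw [this, sub_div, div_self hm.ne']
      ring
    rw [hgf]
    unfold om
    have h1 : (∑ y ∈ P, w y * (1 - ind (far n sh a b (R x) (R y)))) / ∑ y ∈ P, w y ≤
        mj n R w (a + 3) x / mj n R w (a + 2) x := by
      calc (∑ y ∈ P, w y * (1 - ind (far n sh a b (R x) (R y)))) / ∑ y ∈ P, w y
          ≤ mj n R w (a + 3) x / ∑ y ∈ P, w y := div_le_div_of_nonneg_right hm3 hm.le
        _ ≤ mj n R w (a + 3) x / mj n R w (a + 2) x := div_le_div_of_nonneg_left hm30 hm2 hm2le
    linarith
  · have hi : ind (good n sh a (R x)) = 0 := by unfold ind; rw [if_neg hg]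
    rw [hi, zero_mul]
    unfold gf
    exact div_nonneg (Finset.sum_nonneg fun y _ => mul_nonneg (hw y).le (BAL_ind_nonneg _)) hm.le

theorem BAL : BAL_stmt := by
  intro X _ n sh R w hw l
  induction l with
  | nil =>
    intro a x _ _
    simp [gfs]
  | cons b l ih =>
    intro a x hchain hle
    have hab : a + 4 ≤ b := by
      rw [List.isChain_cons_cons] at hchain
      exact hchain.1
    have hchain2 : List.IsChain (fun i j => i + 4 ≤ j) (b :: l) := by
      rw [List.isChain_cons_cons] at hchain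
      exact hchain.2
    have hbn : b ≤ n := hle b (by simp)
    have h1 := ih b x hchain2 (fun i hi => hle i (List.mem_cons_of_mem _ hi))
    have h2 := BAL_one n sh R w hw a b x hab hbn
    have e1 : ((a :: b :: l).dropLast.map
        (fun i => ind (good n sh i (R x)) * om n R w i x)).sum =
        ind (good n sh a (R x)) * om n R w a x +
          ((b :: l).dropLast.map (fun i => ind (good n sh i (R x)) * om n R w i x)).sum := by
      rw [List.dropLast_cons_cons, List.map_cons, List.sum_cons]
    rw [e1, gfs, BAL_filter n sh a b R x (by omega) hbn]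
    exact add_le_add h2 h1

end Pool.Agent.GA
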