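import Pool.Agent.helper4.GA.Spec

set_option autoImplicit false

/-! # Row `DSM` of project ga: the mean square of the differences over the heavy states -/

open Finset
open Pool.Agent.helper32.Cant

namespace Pool.Agent.GA

theorem DSM_ind_nonneg (p : Prop) : 0 ≤ ind p := by
  unfold ind; split_ifs <;> norm_num

theorem DSM_ind_le (p : Prop) : ind p ≤ 1 := by
  unfold ind; split_ifs <;> norm_num

theorem DSM_wt_pos (hCHI : CHI_stmt) {n : ℕ} (c : Cfg n) (κ : ℕ) (p : St n) (x : Fin (3 ^ n)) :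
    0 < wt c κ p x := by
  unfold wt
  exact ((hCHI (3 ^ (2 * n)) _ (by positivity)).1 _).1

theorem DSM_NN_pos (hCHI : CHI_stmt) {n : ℕ} (c : Cfg n) (κ : ℕ) (p : St n) : 0 < NN c κ p := by
  unfold NN
  haveI : Nonempty (Fin (3 ^ n)) := ⟨⟨0, by positivity⟩⟩
  exact Finset.sum_pos (fun x _ => DSM_wt_pos hCHI c κ p x) Finset.univ_nonempty

theorem DSM_VV_le (hCHR : CHR_stmt) (hCHI : CHI_stmt) {n : ℕ} (c : Cfg n) (κ : ℕ)
    (ξ : ZMod (3 ^ (2 * n))) (p : St n) : ‖VV c κ ξ p univ‖ ≤ NN c κ p := by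
  unfold VV NN
  refine (norm_sum_le _ _).trans (Finset.sum_le_sum fun x _ => ?_)
  rw [norm_mul, (hCHR (3 ^ (2 * n))).1, mul_one, Complex.norm_real, Real.norm_eq_abs,
    abs_of_pos (DSM_wt_pos hCHI c κ p x)]

theorem DSM_VV_neg (hCHR : CHR_stmt) {n : ℕ} (c : Cfg n) (κ : ℕ)
    (ξ : ZMod (3 ^ (2 * n))) (p : St n) : ‖VV c κ (-ξ) p univ‖ = ‖VV c κ ξ p univ‖ := by
  have h : VV c κ (-ξ) p univ = (starRingEnd ℂ) (VV c κ ξ p univ) := by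
    unfold VV
    rw [map_sum]
    refine Finset.sum_congr rfl fun x _ => ?_
    rw [map_mul, Complex.conj_ofReal, (hCHR (3 ^ (2 * n))).2.2.2]
  rw [h, RCLike.norm_conj]

theorem DSM_et_nonneg (n g : ℕ) (y U K : ℝ) (hK : 2 ≤ K) : 0 ≤ et n g y U K := by
  unfold et
  positivity

/-- the normalised sum over the heavy states -/
noncomputable def DSM_G {n : ℕ} (c : Cfg n) (κ : ℕ) (y : ℝ) (ξ : ZMod (3 ^ (2 * n))) : ℝ :=
  ∑ p, ind (hv c κ y p) * (‖VV c κ ξ p univ‖ ^ 2 / NN c κ p)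

theorem DSM_G_neg (hCHR : CHR_stmt) {n : ℕ} (c : Cfg n) (κ : ℕ) (y : ℝ)
    (ξ : ZMod (3 ^ (2 * n))) : DSM_G c κ y (-ξ) = DSM_G c κ y ξ := by
  unfold DSM_G
  refine Finset.sum_congr rfl fun p _ => ?_
  rw [DSM_VV_neg hCHR]

theorem DSM_G_abs (hCHR : CHR_stmt) {n : ℕ} (c : Cfg n) (κ : ℕ) (y : ℝ)
    (ξ : ZMod (3 ^ (2 * n))) :
    DSM_G c κ y ξ = DSM_G c κ y ((ξ.valMinAbs.natAbs : ℕ) : ZMod (3 ^ (2 * n))) := by
  have h1 : ((ξ.valMinAbs : ℤ) : ZMod (3 ^ (2 * n))) = ξ := ZMod.coe_valMinAbs ξ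
  rcases Int.natAbs_eq ξ.valMinAbs with h | h
  · have h2 : ((ξ.valMinAbs.natAbs : ℕ) : ZMod (3 ^ (2 * n))) = ξ := by
      rw [← Int.cast_natCast, ← h, h1]
    rw [h2]
  · have h2 : ((ξ.valMinAbs.natAbs : ℕ) : ZMod (3 ^ (2 * n))) = -ξ := by
      rw [← Int.cast_natCast]
      have h3 : ((ξ.valMinAbs.natAbs : ℕ) : ℤ) = -ξ.valMinAbs := by omega
      rw [h3, Int.cast_neg, h1]
    rw [h2, DSM_G_neg hCHR]

theorem DSM_nrm {M : ℕ} (ξ : ZMod M) : nrm ξ = (ξ.valMinAbs.natAbs : ℝ) := by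
  unfold nrm
  rw [Nat.cast_natAbs, Int.cast_abs]

theorem DSM (hCHR : CHR_stmt) (hCHI : CHI_stmt) (hMPP : MPP_stmt) (hPSV : PSV_stmt)
    (hSMU : SMU_stmt) : DSM_stmt := by
  intro n c κ k g T x₁ y U K hn hκk hkn hg hT1 hT2 hK hx1 hx2 hx3
  set S : ℝ := ∑ p, NN c κ p with hS
  have hNpos : ∀ p, 0 < NN c κ p := fun p => DSM_NN_pos hCHI c κ p
  have hSpos : 0 < S := Finset.sum_pos (fun p _ => hNpos p) Finset.univ_nonempty
  set F : ZMod (3 ^ (2 * n)) → ℝ := fun ξ => DSM_G c κ y ξ / S with hF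
  have hG0 : ∀ ξ, 0 ≤ DSM_G c κ y ξ := by
    intro ξ
    unfold DSM_G
    exact Finset.sum_nonneg fun p _ => mul_nonneg (DSM_ind_nonneg _)
      (div_nonneg (sq_nonneg _) (hNpos p).le)
  have hG1 : ∀ ξ, DSM_G c κ y ξ ≤ S := by
    intro ξ
    unfold DSM_G
    refine Finset.sum_le_sum fun p _ => ?_
    have h1 : ‖VV c κ ξ p univ‖ ^ 2 / NN c κ p ≤ NN c κ p := by
      rw [div_le_iff₀ (hNpos p), ← sq]
      exact pow_le_pow_left₀ (norm_nonneg _) (DSM_VV_le hCHR hCHI c κ ξ p) 2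
    calc ind (hv c κ y p) * (‖VV c κ ξ p univ‖ ^ 2 / NN c κ p)
        ≤ 1 * (‖VV c κ ξ p univ‖ ^ 2 / NN c κ p) :=
          mul_le_mul_of_nonneg_right (DSM_ind_le _) (div_nonneg (sq_nonneg _) (hNpos p).le)
      _ ≤ NN c κ p := by rw [one_mul]; exact h1
  have hF01 : ∀ ξ, 0 ≤ F ξ ∧ F ξ ≤ 1 := fun ξ =>
    ⟨div_nonneg (hG0 ξ) hSpos.le, (div_le_one hSpos).2 (hG1 ξ)⟩
  have hFm : ∀ ξ, 3 * n * 3 ^ κ ≤ nrm ξ → nrm ξ ≤ x₁ →
      F ξ ≤ 18 * (8 * (n : ℝ) ^ 2 * 9 ^ κ / nrm ξ ^ 2 + et n g y U K) := by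
    intro ξ h1 h2
    rw [DSM_nrm] at h1 h2 ⊢
    have h1' : 3 * n * 3 ^ κ ≤ ξ.valMinAbs.natAbs := by exact_mod_cast h1
    have h2' : ξ.valMinAbs.natAbs ≤ x₁ := by exact_mod_cast h2
    have h3 := hMPP n c κ g T ξ.valMinAbs.natAbs y U K hn (by omega) hg hT1 hT2 hK h1'
      (by omega) (by omega)
    rw [hF]
    simp only
    rw [div_le_iff₀ hSpos, DSM_G_abs hCHR]
    exact h3
  have hmain := hSMU n κ k x₁ (et n g y U K) F hn hκk (by omega) (DSM_et_nonneg n g y U K hK) hx1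
    hF01 hFm
  have hDD : ∀ p, ∑ v, DD c κ k p v ^ 2 =
      (∑ ξ, ‖VV c κ ξ p univ‖ ^ 2 * mult (3 ^ (2 * n - (k + 1))) ξ) / (3 : ℝ) ^ (2 * n) := by
    intro p
    have h := hPSV (Fin (3 ^ n)) (3 ^ (2 * n)) (3 ^ (2 * n - (k + 1))) (wt c κ p) (uv c p)
      (Nat.pow_le_pow_right (by norm_num) (by omega))
    have e : (((3 ^ (2 * n) : ℕ)) : ℝ) = (3 : ℝ) ^ (2 * n) := by push_cast; ring
    rw [e] at h
    exact h
  have hLHS : ∑ p, ind (hv c κ y p) * ((∑ v, DD c κ k p v ^ 2) / NN c κ p) =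
      S / (3 : ℝ) ^ (2 * n) * ∑ ξ, mult (3 ^ (2 * n - (k + 1))) ξ * F ξ := by
    have e1 : ∀ p, ind (hv c κ y p) * ((∑ v, DD c κ k p v ^ 2) / NN c κ p) =
        ∑ ξ, mult (3 ^ (2 * n - (k + 1))) ξ * (ind (hv c κ y p) *
          (‖VV c κ ξ p univ‖ ^ 2 / NN c κ p)) / (3 : ℝ) ^ (2 * n) := by
      intro p
      rw [hDD p, div_div, Finset.sum_div, Finset.mul_sum]
      refine Finset.sum_congr rfl fun ξ _ => ?_
      have := (hNpos p).ne'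
      field_simp
    rw [Finset.sum_congr rfl fun p _ => e1 p, Finset.sum_comm, Finset.mul_sum]
    refine Finset.sum_congr rfl fun ξ _ => ?_
    rw [← Finset.sum_div, ← Finset.mul_sum]
    rw [hF]
    simp only
    unfold DSM_G
    field_simp
  rw [hLHS]
  have h3 : S / (3 : ℝ) ^ (2 * n) * ∑ ξ, mult (3 ^ (2 * n - (k + 1))) ξ * F ξ ≤
      S / (3 : ℝ) ^ (2 * n) * (((3 : ℝ) ^ (2 * n - (k + 1))) ^ 2 * 3 ^ κ *
        kap n (k - κ) (x₁ / 3 ^ κ) (et n g y U K)) :=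
    mul_le_mul_of_nonneg_left hmain (by positivity)
  refine h3.trans (le_of_eq ?_)
  ring

end Pool.Agent.GA
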